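import Mathlib
import Pool.Graph.R_pool_sql_team_8f841797.Results.MP_ae49d3_an.No

/-!
# Mazur's question on uniform linear summability: generic failure for every matrix
-/

set_option autoImplicit false

open Set Filter Topology MeasureTheory

namespace Pool.Agent.Results.MP_ae49d3_an.GenericFailure

section abstract

variable {X : Type*} [NormedAddCommGroup X] [NormedSpace ℝ X] [CompleteSpace X]

/-- a subspace which is not meagre is dense -/
theorem dense_of_not_meagre (E : Submodule ℝ X) (h : ¬ IsMeagre (E : Set X)) :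
    Dense (E : Set X) := by
  by_contra hd
  apply h
  have h1 : E.topologicalClosure ≠ ⊤ := fun ht => hd (by
    intro x
    have : x ∈ E.topologicalClosure := by rw [ht]; trivial
    exact this)
  have h2 : IsNowhereDense (closure (E : Set X)) := by
    rw [isClosed_closure.isNowhereDense_iff]
    rw [← not_nonempty_iff_eq_empty]
    intro hne
    apply h1
    exact Submodule.eq_top_of_nonempty_interior' _ hne
  exact h2.isMeagre.mono subset_closure

/-- Banach-Steinhaus for sets of the second category -/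
theorem bs_not_meagre (T : ℕ → X →L[ℝ] X) (E : Set X) (hE : ¬ IsMeagre E)
    (hb : ∀ x ∈ E, ∃ C, ∀ i, ‖T i x‖ ≤ C) : ∃ C, ∀ i, ‖T i‖ ≤ C := by
  let B : Submodule ℝ X :=
    { carrier := {x | ∃ C, ∀ i, ‖T i x‖ ≤ C}
      add_mem' := by
        rintro x y ⟨C, hC⟩ ⟨D, hD⟩
        refine ⟨C + D, fun i => ?_⟩
        rw [map_add]
        exact (norm_add_le _ _).trans (add_le_add (hC i) (hD i))
      zero_mem' := ⟨0, fun i => by simp⟩
      smul_mem' := by
        rintro a x ⟨C, hC⟩
        refine ⟨‖a‖ * C, fun i => ?_⟩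
        rw [map_smul, norm_smul]
        exact mul_le_mul_of_nonneg_left (hC i) (norm_nonneg _) }
  have hA : ∃ n : ℕ, (interior {x : X | ∀ i, ‖T i x‖ ≤ n}).Nonempty := by
    by_contra hcon
    push Not at hcon
    apply hE
    have hsub : E ⊆ ⋃ n : ℕ, {x : X | ∀ i, ‖T i x‖ ≤ n} := by
      intro x hx
      obtain ⟨C, hC⟩ := hb x hx
      obtain ⟨n, hn⟩ := exists_nat_ge C
      exact mem_iUnion.2 ⟨n, fun i => (hC i).trans hn⟩
    suffices hU : IsMeagre (⋃ n : ℕ, {x : X | ∀ i, ‖T i x‖ ≤ n}) from hU.mono hsub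
    apply isMeagre_iUnion
    intro n
    have hcl : IsClosed {x : X | ∀ i, ‖T i x‖ ≤ n} := by
      have : {x : X | ∀ i, ‖T i x‖ ≤ n} = ⋂ i, {x : X | ‖T i x‖ ≤ n} := by
        ext x; simp
      rw [this]
      exact isClosed_iInter fun i => isClosed_le (T i).continuous.norm continuous_const
    apply IsNowhereDense.isMeagre
    rw [hcl.isNowhereDense_iff]
    exact hcon n
  obtain ⟨n, hn⟩ := hA
  have hBtop : B = ⊤ := by
    apply Submodule.eq_top_of_nonempty_interior'
    apply hn.mono
    apply interior_mono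
    intro x hx
    exact ⟨n, hx⟩
  apply banach_steinhaus
  intro x
  have : x ∈ B := by rw [hBtop]; trivial
  exact this

/-- the set on which a bounded sequence of operators converges is closed -/
theorem closed_cauchy (T : ℕ → X →L[ℝ] X) {C : ℝ} (hC : ∀ i, ‖T i‖ ≤ C) :
    IsClosed {x : X | CauchySeq fun i => T i x} := by
  have hC0 : 0 ≤ C := (norm_nonneg _).trans (hC 0)
  rw [← isSeqClosed_iff_isClosed]
  intro u x hu hx
  rw [mem_setOf_eq, Metric.cauchySeq_iff]
  intro ε hε
  have h1 : Tendsto (fun n => C * ‖x - u n‖) atTop (𝓝 0) := by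
    have : Tendsto (fun n => ‖x - u n‖) atTop (𝓝 0) := by
      have h2 := (tendsto_const_nhds (x := x)).sub hx
      simpa using h2.norm
    simpa using this.const_mul C
  obtain ⟨n, hn⟩ := (h1.eventually (gt_mem_nhds (by positivity : 0 < ε / 3))).exists
  have h2 := Metric.cauchySeq_iff.1 (hu n) (ε / 3) (by positivity)
  obtain ⟨N, hN⟩ := h2
  refine ⟨N, fun k hk l hl => ?_⟩
  have h3 : ∀ i, ‖T i x - T i (u n)‖ < ε / 3 := by
    intro i
    rw [← map_sub]
    calc ‖T i (x - u n)‖ ≤ ‖T i‖ * ‖x - u n‖ := (T i).le_opNorm _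
      _ ≤ C * ‖x - u n‖ := mul_le_mul_of_nonneg_right (hC i) (norm_nonneg _)
      _ < ε / 3 := hn
  have h4 := hN k hk l hl
  rw [dist_eq_norm] at h4 ⊢
  calc ‖T k x - T l x‖ = ‖(T k x - T k (u n)) + (T k (u n) - T l (u n)) - (T l x - T l (u n))‖ := by
        congr 1; abel
    _ ≤ ‖(T k x - T k (u n)) + (T k (u n) - T l (u n))‖ + ‖T l x - T l (u n)‖ := norm_sub_le _ _
    _ ≤ ‖T k x - T k (u n)‖ + ‖T k (u n) - T l (u n)‖ + ‖T l x - T l (u n)‖ := by
        gcongr; exact norm_add_le _ _
    _ < ε := by linarith [h3 k, h3 l]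

/-- **Zero-one law for summation methods.** -/
theorem zero_one (T : ℕ → ℕ → X →L[ℝ] X)
    (hE : ¬ IsMeagre {f : X | ∃ σ : ℕ → X, (∀ m, Tendsto (fun K => T m K f) atTop (𝓝 (σ m))) ∧
      Tendsto σ atTop (𝓝 f)}) :
    ∀ f : X, ∃ σ : ℕ → X, (∀ m, Tendsto (fun K => T m K f) atTop (𝓝 (σ m))) ∧
      Tendsto σ atTop (𝓝 f) := by
  let E : Submodule ℝ X :=
    { carrier := {f : X | ∃ σ : ℕ → X, (∀ m, Tendsto (fun K => T m K f) atTop (𝓝 (σ m))) ∧
        Tendsto σ atTop (𝓝 f)}
      add_mem' := by
        rintro f g ⟨σ, h1, h2⟩ ⟨τ, h3, h4⟩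
        refine ⟨fun m => σ m + τ m, fun m => ?_, h2.add h4⟩
        simpa using (h1 m).add (h3 m)
      zero_mem' := ⟨fun _ => 0, fun m => by simp, tendsto_const_nhds⟩
      smul_mem' := by
        rintro a f ⟨σ, h1, h2⟩
        refine ⟨fun m => a • σ m, fun m => ?_, h2.const_smul a⟩
        simpa using (h1 m).const_smul a }
  have hE' : ¬ IsMeagre (E : Set X) := hE
  have hdense := dense_of_not_meagre E hE'
  have hbd : ∀ u : ℕ → X, ∀ a : X, Tendsto u atTop (𝓝 a) → ∃ C, ∀ i, ‖u i‖ ≤ C := by
    intro u a h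
    obtain ⟨C, hC⟩ := h.norm.bddAbove_range
    exact ⟨C, fun i => hC ⟨i, rfl⟩⟩
  have hconv : ∀ m f, CauchySeq fun K => T m K f := by
    intro m
    obtain ⟨C, hC⟩ := bs_not_meagre (T m) (E : Set X) hE' (by
      rintro f ⟨σ, h1, -⟩
      exact hbd _ _ (h1 m))
    have hcl := closed_cauchy (T m) hC
    have hsub : (E : Set X) ⊆ {x : X | CauchySeq fun i => T m i x} := by
      rintro f ⟨σ, h1, -⟩
      exact (h1 m).cauchySeq
    intro f
    have := hcl.closure_subset_iff.2 hsub (hdense f)
    exact this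
  choose L hL using fun m f => cauchySeq_tendsto_of_complete (hconv m f)
  let S : ℕ → X →L[ℝ] X := fun m => continuousLinearMapOfTendsto (T m) (f := L m)
    (tendsto_pi_nhds.2 fun f => hL m f)
  have hS : ∀ m f, S m f = L m f := fun m f => rfl
  obtain ⟨D, hD⟩ := bs_not_meagre S (E : Set X) hE' (by
    rintro f ⟨σ, h1, h2⟩
    have : ∀ m, S m f = σ m := fun m => tendsto_nhds_unique (hL m f) (h1 m)
    simp only [this]
    exact hbd _ _ h2)
  have hcl := closed_cauchy S hD
  intro f
  -- the limits of `S m f`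
  have hsub : (E : Set X) ⊆ {x : X | CauchySeq fun i => S i x} := by
    rintro g ⟨σ, h1, h2⟩
    have : ∀ m, S m g = σ m := fun m => tendsto_nhds_unique (hL m g) (h1 m)
    simp only [mem_setOf_eq, this]
    exact h2.cauchySeq
  have hall : ∀ g, CauchySeq fun i => S i g := fun g =>
    hcl.closure_subset_iff.2 hsub (hdense g)
  choose P hP using fun g => cauchySeq_tendsto_of_complete (hall g)
  let Q : X →L[ℝ] X := continuousLinearMapOfTendsto S (f := P)
    (tendsto_pi_nhds.2 fun g => hP g)
  have hQ : (Q : X → X) = id := by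
    apply Continuous.ext_on hdense Q.continuous continuous_id
    rintro g ⟨σ, h1, h2⟩
    have h3 : ∀ m, S m g = σ m := fun m => tendsto_nhds_unique (hL m g) (h1 m)
    have h4 : Tendsto (fun m => S m g) atTop (𝓝 g) := by simpa only [h3] using h2
    exact tendsto_nhds_unique (hP g) h4
  refine ⟨fun m => L m f, fun m => hL m f, ?_⟩
  have h5 := hP f
  have h6 : P f = f := congrFun hQ f
  rw [h6] at h5
  exact h5

end abstract

/-- the Fourier coefficient functional of the system `φ` -/
noncomputable def coefL (φ : ℕ → C(unitInterval, ℝ)) (n : ℕ) : C(unitInterval, ℝ) →L[ℝ] ℝ :=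
  LinearMap.mkContinuous
    { toFun := fun f => (∫ t, f t * φ n t) / ∫ t, φ n t ^ 2
      map_add' := by
        intro f g
        have hi : ∀ f : C(unitInterval, ℝ), Integrable (fun t => f t * φ n t) := fun f =>
          (f * φ n).continuous.integrable_of_hasCompactSupport (HasCompactSupport.of_compactSpace _)
        rw [← add_div, ← integral_add (hi f) (hi g)]
        congr 1
        apply integral_congr_ae
        filter_upwards with t
        simp [add_mul]
      map_smul' := by
        intro a f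
        simp only [ContinuousMap.coe_smul, Pi.smul_apply, smul_eq_mul, RingHom.id_apply, mul_assoc]
        rw [integral_const_mul, mul_div_assoc] }
    (‖φ n‖ / |∫ t, φ n t ^ 2|) (by
      intro f
      simp only [LinearMap.coe_mk, AddHom.coe_mk]
      rw [norm_div, Real.norm_eq_abs (∫ t, φ n t ^ 2), div_mul_eq_mul_div]
      apply div_le_div_of_nonneg_right _ (abs_nonneg _)
      have h1 : ∀ t, ‖f t * φ n t‖ ≤ ‖φ n‖ * ‖f‖ := by
        intro t
        rw [norm_mul, mul_comm]
        exact mul_le_mul ((φ n).norm_coe_le_norm t) (f.norm_coe_le_norm t) (norm_nonneg _)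
          (norm_nonneg _)
      have h2 := norm_integral_le_of_norm_le_const (μ := (volume : Measure unitInterval))
        (ae_of_all _ h1)
      simpa using h2)

/-- the `N`-th partial sum of the expansion of `f` in the orthogonal system `φ` -/
noncomputable def psum (φ : ℕ → C(unitInterval, ℝ)) (f : C(unitInterval, ℝ)) (N : ℕ) :
    C(unitInterval, ℝ) :=
  ∑ n ∈ Finset.range (N + 1), ((∫ t, f t * φ n t) / ∫ t, φ n t ^ 2) • φ n

/-- the expansion of `f` is uniformly summable to `f` by the matrix `c` -/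
def UniformlySummable (φ : ℕ → C(unitInterval, ℝ)) (c : ℕ → ℕ → ℝ) (f : C(unitInterval, ℝ)) :
    Prop :=
  ∃ σ : ℕ → C(unitInterval, ℝ),
    (∀ m, Tendsto (fun K => ∑ N ∈ Finset.range K, c m N • psum φ f N) atTop (𝓝 (σ m))) ∧
    Tendsto σ atTop (𝓝 f)

/-- the operator `f ↦ ∑_{N < K} c m N S_N f` -/
noncomputable def op (φ : ℕ → C(unitInterval, ℝ)) (c : ℕ → ℕ → ℝ) (m K : ℕ) :
    C(unitInterval, ℝ) →L[ℝ] C(unitInterval, ℝ) :=
  ∑ N ∈ Finset.range K, c m N • ∑ n ∈ Finset.range (N + 1), (coefL φ n).smulRight (φ n)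

theorem op_apply (φ : ℕ → C(unitInterval, ℝ)) (c : ℕ → ℕ → ℝ) (m K : ℕ) (f : C(unitInterval, ℝ)) :
    op φ c m K f = ∑ N ∈ Finset.range K, c m N • psum φ f N := by
  unfold op psum
  simp only [ContinuousLinearMap.sum_apply, ContinuousLinearMap.smul_apply,
    ContinuousLinearMap.smulRight_apply]
  rfl

/-- **Zero-one law**: for every system and every matrix, either all expansions are uniformly
summable, or only those of a meagre set of functions. -/
theorem meagre_or_all (φ : ℕ → C(unitInterval, ℝ)) (c : ℕ → ℕ → ℝ) :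
    IsMeagre {f | UniformlySummable φ c f} ∨ ∀ f, UniformlySummable φ c f := by
  by_cases h : IsMeagre {f | UniformlySummable φ c f}
  · exact Or.inl h
  · right
    have e : {f | UniformlySummable φ c f} = {f : C(unitInterval, ℝ) | ∃ σ : ℕ → C(unitInterval, ℝ),
        (∀ m, Tendsto (fun K => op φ c m K f) atTop (𝓝 (σ m))) ∧ Tendsto σ atTop (𝓝 f)} := by
      ext f
      simp only [UniformlySummable, op_apply, mem_setOf_eq]
    rw [e] at h
    intro f
    have h1 := zero_one (op φ c) h f
    simpa only [UniformlySummable, op_apply] using h1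

theorem openPos : (volume : Measure unitInterval).IsOpenPosMeasure := ⟨fun U hU ⟨x, hx⟩ => by
    obtain ⟨W, hW, rfl⟩ := isOpen_induced_iff.1 hU
    have h1 : x.1 ∈ closure (Ioo (0 : ℝ) 1) := by rw [closure_Ioo zero_ne_one]; exact x.2
    rw [unitInterval.volume_apply, Subtype.image_preimage_coe]
    exact ((isOpen_Ioo.inter hW).measure_pos volume ((mem_closure_iff.1 h1 W hW hx).mono
      (inter_comm _ _).subset)).trans_le (measure_mono (inter_subset_inter_left _ Ioo_subset_Icc_self)) |>.ne'⟩

theorem integral_sq_ne (g : C(unitInterval, ℝ)) (hg : g ≠ 0) : ∫ t, g t ^ 2 ≠ 0 := by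
  haveI := openPos
  intro h
  apply hg
  have hi : Integrable (fun t => g t ^ 2) :=
    (g ^ 2).continuous.integrable_of_hasCompactSupport (HasCompactSupport.of_compactSpace _)
  have h1 := (integral_eq_zero_iff_of_nonneg (fun t => sq_nonneg (g t)) hi).1 h
  have h2 : (fun t => g t ^ 2) = fun _ => (0 : ℝ) :=
    (Continuous.ae_eq_iff_eq volume (by fun_prop) continuous_const).1 h1
  ext t
  simpa using congrFun h2 t

theorem coef_zero_meagre (φ : ℕ → C(unitInterval, ℝ)) (n : ℕ) (h : φ n ≠ 0) :
    IsMeagre {f | coefL φ n f = 0} := by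
  by_contra hc
  have hd := dense_of_not_meagre (LinearMap.ker (coefL φ n : C(unitInterval, ℝ) →ₗ[ℝ] ℝ)) hc
  have hcl : IsClosed {f | coefL φ n f = 0} := isClosed_eq (coefL φ n).continuous continuous_const
  have h1 : coefL φ n (φ n) = 0 := hcl.closure_subset_iff.2 subset_rfl (hd (φ n))
  have h2 : coefL φ n (φ n) = (∫ t, φ n t * φ n t) / ∫ t, φ n t ^ 2 := rfl
  rw [h2] at h1
  simp only [← sq] at h1
  rw [div_self (integral_sq_ne _ h)] at h1
  exact one_ne_zero h1

/-- for every system closed in `C[0,1]`, the expansion of a generic continuous function is uniformly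
summable by a matrix which depends on the function -/
theorem generic_some (φ : ℕ → C(unitInterval, ℝ)) (h1 : ∀ n, φ n ≠ 0)
    (h3 : Dense (Submodule.span ℝ (Set.range φ) : Set C(unitInterval, ℝ))) :
    {f | ∃ c : ℕ → ℕ → ℝ, UniformlySummable φ c f} ∈ residual C(unitInterval, ℝ) := by
  have h : (⋂ n, {f | coefL φ n f = 0}ᶜ) ∈ residual C(unitInterval, ℝ) :=
    countable_iInter_mem.2 fun n => coef_zero_meagre φ n (h1 n)
  refine mem_of_superset h ?_
  intro f hf
  have hf : ∀ n, coefL φ n f ≠ 0 := by simpa using hf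
  have hspan : ∀ n, φ n ∈ Submodule.span ℝ (Set.range (psum φ f)) := by
    intro n
    have hP : coefL φ n f • φ n ∈ Submodule.span ℝ (Set.range (psum φ f)) := by
      cases n with
      | zero =>
        have : coefL φ 0 f • φ 0 = psum φ f 0 := by
          unfold psum
          rw [zero_add, Finset.sum_range_one]
          rfl
        rw [this]
        exact Submodule.subset_span ⟨0, rfl⟩
      | succ n =>
        have : coefL φ (n + 1) f • φ (n + 1) = psum φ f (n + 1) - psum φ f n := by
          unfold psum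
          rw [Finset.sum_range_succ _ (n + 1), add_sub_cancel_left]
          rfl
        rw [this]
        exact sub_mem (Submodule.subset_span ⟨_, rfl⟩) (Submodule.subset_span ⟨_, rfl⟩)
    have := Submodule.smul_mem _ (coefL φ n f)⁻¹ hP
    rwa [smul_smul, inv_mul_cancel₀ (hf n), one_smul] at this
  have hle : Submodule.span ℝ (Set.range φ) ≤ Submodule.span ℝ (Set.range (psum φ f)) :=
    Submodule.span_le.2 (by rintro _ ⟨n, rfl⟩; exact hspan n)
  have hd : Dense (Submodule.span ℝ (Set.range (psum φ f)) : Set C(unitInterval, ℝ)) := h3.mono hle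
  have hex : ∀ m : ℕ, ∃ c : ℕ →₀ ℝ,
      ‖(c.sum fun i a => a • psum φ f i) - f‖ < 1 / ((m : ℝ) + 1) := by
    intro m
    obtain ⟨g, hg, hgm⟩ := hd.exists_dist_lt f (ε := 1 / ((m : ℝ) + 1)) (by positivity)
    obtain ⟨c, hc⟩ := Finsupp.mem_span_range_iff_exists_finsupp.1 hg
    exact ⟨c, by rw [hc, ← dist_eq_norm, dist_comm]; exact hgm⟩
  choose c hc using hex
  refine ⟨fun m N => c m N, fun m => (c m).sum fun i a => a • psum φ f i, fun m => ?_, ?_⟩
  · apply tendsto_const_nhds.congr'
    obtain ⟨K0, hK0⟩ := (c m).support.exists_nat_subset_range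
    filter_upwards [eventually_ge_atTop K0] with K hK
    exact Finsupp.sum_of_support_subset _ (hK0.trans (Finset.range_mono hK)) _ (by simp)
  · rw [tendsto_iff_norm_sub_tendsto_zero]
    exact squeeze_zero (fun _ => norm_nonneg _) (fun m => (hc m).le)
      tendsto_one_div_add_atTop_nhds_zero_nat

/-- **Main theorem.**  (1) For every sequence `φ` of continuous functions and every matrix `c` either
the expansions of all continuous functions are uniformly summable by `c`, or only those of a meagre
set of continuous functions.  (2) For every system closed in `C[0,1]` the expansion of a generic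
continuous function is uniformly summable by some matrix, which depends on the function.
(3) There is an orthogonal system closed in `C[0,1]` such that for every matrix the second case of (1)
holds; so for every countable family of matrices the expansion of a generic continuous function is
uniformly summable by none of them, although by (2) it is uniformly summable by some matrix;
moreover, one fixed continuous function has an expansion that is uniformly summable by no matrix. -/
theorem result :
    (∀ (φ : ℕ → C(unitInterval, ℝ)) (c : ℕ → ℕ → ℝ),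
      IsMeagre {f | UniformlySummable φ c f} ∨ ∀ f, UniformlySummable φ c f) ∧
    (∀ φ : ℕ → C(unitInterval, ℝ), (∀ n, φ n ≠ 0) →
      Dense (Submodule.span ℝ (Set.range φ) : Set C(unitInterval, ℝ)) →
      {f | ∃ c : ℕ → ℕ → ℝ, UniformlySummable φ c f} ∈ residual C(unitInterval, ℝ)) ∧
    ∃ φ : ℕ → C(unitInterval, ℝ), (∀ n, φ n ≠ 0) ∧
      (∀ m n, m ≠ n → ∫ t, φ m t * φ n t = 0) ∧
      Dense (Submodule.span ℝ (Set.range φ) : Set C(unitInterval, ℝ)) ∧
      (∀ c : ℕ → ℕ → ℝ, IsMeagre {f | UniformlySummable φ c f}) ∧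
      (∀ c : ℕ → ℕ → ℕ → ℝ,
        {f : C(unitInterval, ℝ) | (∀ i, ¬ UniformlySummable φ (c i) f) ∧
          ∃ c' : ℕ → ℕ → ℝ, UniformlySummable φ c' f} ∈ residual _) ∧
      ∃ f : C(unitInterval, ℝ), ∀ c : ℕ → ℕ → ℝ, ¬ UniformlySummable φ c f := by
  refine ⟨meagre_or_all, generic_some, ?_⟩
  obtain ⟨φ, h1, h2, h3, f, h4⟩ := Pool.Agent.Results.MP_ae49d3_an.No.result
  have h5 : ∀ c : ℕ → ℕ → ℝ, ¬ UniformlySummable φ c f := by
    rintro c ⟨σ, h6, h7⟩
    exact h4 c σ h6 h7
  have h6 : ∀ c : ℕ → ℕ → ℝ, IsMeagre {f | UniformlySummable φ c f} := by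
    intro c
    rcases meagre_or_all φ c with h | h
    · exact h
    · exact absurd (h f) (h5 c)
  refine ⟨φ, h1, h2, h3, h6, ?_, f, h5⟩
  intro c
  have h7 : {f : C(unitInterval, ℝ) | ∀ i, ¬ UniformlySummable φ (c i) f} =
      ⋂ i, {f | UniformlySummable φ (c i) f}ᶜ := by
    ext f; simp
  have h8 : {f : C(unitInterval, ℝ) | ∀ i, ¬ UniformlySummable φ (c i) f} ∈ residual _ := by
    rw [h7]
    exact countable_iInter_mem.2 fun i => h6 (c i)
  exact inter_mem h8 (generic_some φ h1 h3)

end Pool.Agent.Results.MP_ae49d3_an.GenericFailure
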